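import Pool.Agent.W886.LS.Stm0

/-!
# The asymptotic bound
-/

set_option autoImplicit false

namespace Pool.Agent.W67.LS

open Filter

theorem aux1 (K m : ℕ) (hm : 16 * K + 4 ≤ m) (n : ℕ) (h1 : 4 * m ≤ n) (h2 : n ≤ 4 * m + 3) :
    K * (n + 1) * (4 * 2 ^ m) + n ≤ 2 ^ n := by
  have ha : m + 1 ≤ 2 ^ m := Nat.lt_two_pow_self
  have hb : 16 * K + 4 ≤ 4 ^ m := by
    calc 16 * K + 4 ≤ m := hm
      _ ≤ 4 ^ m := (Nat.lt_pow_self (by norm_num)).le
  have hc : 1 ≤ 2 ^ m := Nat.one_le_two_pow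
  have hd : n + 1 ≤ 4 * (m + 1) := by omega
  calc K * (n + 1) * (4 * 2 ^ m) + n
      ≤ K * (4 * (m + 1)) * (4 * 2 ^ m) + 4 * (m + 1) * 2 ^ m := by
        refine Nat.add_le_add ?_ ?_
        · exact Nat.mul_le_mul_right _ (Nat.mul_le_mul_left _ hd)
        · calc n ≤ 4 * (m + 1) * 1 := by omega
            _ ≤ 4 * (m + 1) * 2 ^ m := Nat.mul_le_mul_left _ hc
      _ = (16 * K + 4) * ((m + 1) * 2 ^ m) := by ring
      _ ≤ 4 ^ m * (2 ^ m * 2 ^ m) := Nat.mul_le_mul hb (Nat.mul_le_mul_right _ ha)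
      _ = 2 ^ (4 * m) := by
        rw [show (4 : ℕ) = 2 * 2 from rfl, Nat.mul_pow]
        rw [← pow_add, ← pow_add]
        congr 1
        ring
      _ ≤ 2 ^ n := Nat.pow_le_pow_right (by norm_num) h1

theorem task : Pool.Agent.W886.LS.S_ASY := by
  intro c g hg n₁ δ hδ
  obtain ⟨L, hL⟩ := exists_pow_lt_of_lt_one hδ (show (1 / 2 : ℝ) < 1 by norm_num)
  set s : ℕ := 2 * c + 2 with hs
  set K : ℕ := s + 3 with hK
  set N : ℕ := 4 * (16 * K + 5) + L + (2 * c + 5) with hN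
  have hspos : (0 : ℝ) < (s : ℝ) + 1 := by positivity
  have hε : (0 : ℝ) < 1 / (4 * ((s : ℝ) + 1)) := by positivity
  obtain ⟨n', hn', hgn⟩ := (frequently_atTop.mp (hg _ hε)) (n₁ + (s + 1) * N)
  set n : ℕ := n' / (s + 1) with hn
  have hnN : N ≤ n := by
    rw [hn, Nat.le_div_iff_mul_le (Nat.succ_pos s)]
    calc N * (s + 1) = (s + 1) * N := Nat.mul_comm _ _
      _ ≤ n₁ + (s + 1) * N := Nat.le_add_left _ _
      _ ≤ n' := hn'
  have hmul : (s + 1) * n ≤ n' := Nat.mul_div_le n' (s + 1)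
  have hlt : n' < (s + 1) * (n + 1) := by
    have h := Nat.lt_div_mul_add (a := n') (b := s + 1) (Nat.succ_pos s)
    calc n' < n' / (s + 1) * (s + 1) + (s + 1) := h
      _ = (s + 1) * (n + 1) := by rw [← hn]; ring
  refine ⟨s, n, n', by omega, by omega, hmul, ?_, ?_⟩
  · -- c * (n + s + 2) < (s + 1) * n
    have h1 : 2 * c + 5 ≤ n := by omega
    have h2 : c * (2 * c + 4) ≤ c * n := Nat.mul_le_mul_left _ (by omega)
    rw [hs]
    have e1 : c * (n + (2 * c + 2) + 2) = c * n + c * (2 * c + 4) := by ring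
    have e2 : (2 * c + 2 + 1) * n = c * n + c * n + 3 * n := by ring
    rw [e1, e2]
    omega
  · -- the bound
    set m : ℕ := n / 4 with hm
    have hm1 : 4 * m ≤ n := Nat.mul_div_le n 4
    have hm2 : n ≤ 4 * m + 3 := by omega
    have hmK : 16 * K + 4 ≤ m := by omega
    have hmain := aux1 K m hmK n hm1 hm2
    have hmainR : (K : ℝ) * ((n : ℝ) + 1) * (4 * 2 ^ m) + n ≤ 2 ^ n := by exact_mod_cast hmain
    -- the exponent
    have hexp : max (g n') 0 + 1 ≤ 4 * (2 : ℝ) ^ m := by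
      have e1 : 1 / (4 * ((s : ℝ) + 1)) * n' ≤ (m : ℝ) + 1 := by
        have h3 : (n' : ℝ) ≤ ((s : ℝ) + 1) * ((n : ℝ) + 1) := by exact_mod_cast hlt.le
        have h4 : (n : ℝ) + 1 ≤ 4 * ((m : ℝ) + 1) := by
          have : n + 1 ≤ 4 * (m + 1) := by omega
          exact_mod_cast this
        rw [div_mul_eq_mul_div, one_mul, div_le_iff₀ (by positivity)]
        calc (n' : ℝ) ≤ ((s : ℝ) + 1) * ((n : ℝ) + 1) := h3
          _ ≤ ((s : ℝ) + 1) * (4 * ((m : ℝ) + 1)) := mul_le_mul_of_nonneg_left h4 hspos.le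
          _ = ((m : ℝ) + 1) * (4 * ((s : ℝ) + 1)) := by ring
      have e2 : g n' ≤ (2 : ℝ) ^ (m + 1) := by
        calc g n' ≤ (2 : ℝ) ^ (1 / (4 * ((s : ℝ) + 1)) * (n' : ℝ)) := hgn
          _ ≤ (2 : ℝ) ^ ((m : ℝ) + 1) := Real.rpow_le_rpow_of_exponent_le (by norm_num) e1
          _ = (2 : ℝ) ^ (m + 1) := by
            rw [← Real.rpow_natCast]
            congr 1
            push_cast
            ring
      have e3 : max (g n') 0 ≤ (2 : ℝ) ^ (m + 1) := max_le e2 (by positivity)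
      have e4 : (1 : ℝ) ≤ 2 ^ m := one_le_pow₀ (by norm_num)
      rw [pow_succ] at e3
      linarith
    have hnn : 0 ≤ max (g n') 0 + 1 := by
      have := le_max_right (g n') 0
      linarith
    have hbase : (2 : ℝ) ^ (n' + 1) + 1 ≤ (2 : ℝ) ^ (((n' + 2 : ℕ) : ℝ)) := by
      rw [Real.rpow_natCast]
      have e5 : (1 : ℝ) ≤ 2 ^ (n' + 1) := one_le_pow₀ (by norm_num)
      rw [show n' + 2 = (n' + 1) + 1 from rfl, pow_succ (2 : ℝ) (n' + 1)]
      linarith
    have hX : ((2 : ℝ) ^ (n' + 1) + 1) ^ (max (g n') 0 + 1) ≤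
        (2 : ℝ) ^ ((2 : ℝ) ^ n - n) := by
      calc ((2 : ℝ) ^ (n' + 1) + 1) ^ (max (g n') 0 + 1)
          ≤ ((2 : ℝ) ^ (((n' + 2 : ℕ) : ℝ))) ^ (max (g n') 0 + 1) :=
            Real.rpow_le_rpow (by positivity) hbase hnn
        _ = (2 : ℝ) ^ ((((n' + 2 : ℕ) : ℝ)) * (max (g n') 0 + 1)) := by
            rw [← Real.rpow_mul (by norm_num)]
        _ ≤ (2 : ℝ) ^ ((2 : ℝ) ^ n - n) := by
            refine Real.rpow_le_rpow_of_exponent_le (by norm_num) ?_
            have e6 : ((n' + 2 : ℕ) : ℝ) ≤ (K : ℝ) * ((n : ℝ) + 1) := by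
              have h7 : n' + 2 ≤ K * (n + 1) := by
                rw [hK]
                have : (s + 3) * (n + 1) = (s + 1) * (n + 1) + 2 * (n + 1) := by ring
                rw [this]
                omega
              exact_mod_cast h7
            calc ((n' + 2 : ℕ) : ℝ) * (max (g n') 0 + 1)
                ≤ ((K : ℝ) * ((n : ℝ) + 1)) * (4 * (2 : ℝ) ^ m) :=
                  mul_le_mul e6 hexp hnn (by positivity)
              _ ≤ (2 : ℝ) ^ n - n := by linarith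
    have hhalf : ((1 / 2 : ℝ)) ^ (2 ^ n) = (2 : ℝ) ^ (-((2 : ℝ) ^ n)) := by
      rw [Real.rpow_neg (by norm_num), one_div, inv_pow]
      congr 1
      rw [← Real.rpow_natCast]
      push_cast
      rfl
    calc ((1 / 2 : ℝ)) ^ (2 ^ n) * ((2 : ℝ) ^ (n' + 1) + 1) ^ (max (g n') 0 + 1)
        ≤ (2 : ℝ) ^ (-((2 : ℝ) ^ n)) * (2 : ℝ) ^ ((2 : ℝ) ^ n - n) := by
          rw [hhalf]
          exact mul_le_mul_of_nonneg_left hX (by positivity)
      _ = (2 : ℝ) ^ (-(n : ℝ)) := by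
          rw [← Real.rpow_add (by norm_num)]
          congr 1
          ring
      _ = (1 / 2 : ℝ) ^ n := by
          rw [Real.rpow_neg (by norm_num), Real.rpow_natCast, one_div, inv_pow]
      _ ≤ (1 / 2 : ℝ) ^ L := pow_le_pow_of_le_one (by norm_num) (by norm_num) (by omega)
      _ ≤ δ := hL.le

end Pool.Agent.W67.LS
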